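import Pool.Agent.helper47.CL.SpecD

set_option autoImplicit false

namespace Pool.Agent.helper41.CL

open Finset

theorem BF_kt {α : Type} [DecidableEq α] {E : Finset (Finset α)} {x y p : α} (h : Kt E x y) (hp : 2 ≤ #(inc E p)) : p ≠ x ∧ p ≠ y := by
  obtain ⟨-, -, h3⟩ := h
  constructor
  · rintro rfl
    have : inc E p ⊆ {{p, y}} := by
      intro e he
      rw [inc, mem_filter] at he
      rw [mem_singleton]
      exact h3 e he.1 (Or.inl he.2)
    have := card_le_card this
    rw [card_singleton] at this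
    omega
  · rintro rfl
    have : inc E p ⊆ {{x, p}} := by
      intro e he
      rw [inc, mem_filter] at he
      rw [mem_singleton]
      exact h3 e he.1 (Or.inr he.2)
    have := card_le_card this
    rw [card_singleton] at this
    omega

theorem BF (h1 : ZD_stmt) (h2 : ZK_stmt) (h3 : ZP_stmt) (h4 : SD_stmt) : BF_stmt := by
  intro N hSA hSC α _ V E q hG hV hN hE hq hF
  obtain ⟨⟨p, hp3⟩, hall⟩ := hF
  have hsum := h4 α V E hG
  have hincV : ∀ z, 1 ≤ #(inc E z) → z ∈ V := by
    intro z hz
    obtain ⟨e, he⟩ := card_pos.mp hz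
    rw [inc, mem_filter] at he
    exact (hG e he.1).1 he.2
  obtain ⟨x, y, hxy⟩ : ∃ x y, Kt E x y := by
    by_contra hcon
    push Not at hcon
    have h6 : ∑ x ∈ V, 3 ≤ ∑ x ∈ V, #(inc E x) := by
      apply sum_le_sum
      intro x hx
      rcases hall x hx with h | ⟨y, hy⟩
      · exact h
      · exact absurd hy (hcon x y)
    rw [hsum, sum_const, smul_eq_mul] at h6
    omega
  by_cases hbig : ∃ p, 4 ≤ #(inc E p)
  · obtain ⟨p, hp⟩ := hbig
    have hpV : p ∈ V := hincV p (by omega)
    obtain ⟨hpx, hpy⟩ := BF_kt hxy (show 2 ≤ #(inc E p) by omega)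
    obtain ⟨hne, hEx, hk⟩ := hxy
    have hq2 : 2 ≤ q := by
      have hsub : insert {x, y} (inc E p) ⊆ E := by
        intro e he
        rw [mem_insert] at he
        rcases he with rfl | he
        · exact hEx
        · rw [inc, mem_filter] at he; exact he.1
      have hnot : ({x, y} : Finset α) ∉ inc E p := by
        intro h
        rw [inc, mem_filter, mem_insert, mem_singleton] at h
        rcases h.2 with h' | h'
        · exact hpx h'
        · exact hpy h'
      have := card_le_card hsub
      rw [card_insert_of_notMem hnot] at this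
      omega
    obtain ⟨t, rfl⟩ : ∃ t, q = t + 2 := ⟨q - 2, by omega⟩
    obtain ⟨a1, a2, a3, a4⟩ := h3 α V E p hG hpV
    have hKt : Kt (av E {p}) x y := by
      refine ⟨hne, ?_, ?_⟩
      · rw [av, mem_filter]
        refine ⟨hEx, ?_⟩
        rw [disjoint_singleton_right, mem_insert, mem_singleton]
        rintro (h | h)
        · exact hpx h
        · exact hpy h
      · intro e he
        rw [av, mem_filter] at he
        exact hk e he.1
    obtain ⟨b1, b2, b3, b4⟩ := h2 α _ _ x y a1 hKt
    have s1 := hSC α _ _ (t + 1) (t + 2) b1 (by omega) (by omega) (by omega) (by omega)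
    have s2 := hSA α _ _ (t + 2) t b1 (by omega) (by omega) (by omega) (by omega)
    have s3 := b4 (t + 2)
    have s4 := a4 (t + 2 + 1)
    rw [show t + 1 + 1 = t + 2 by ring] at s1
    obtain ⟨X, hX⟩ : ∃ X, X = #(ind ((V.erase p) \ {x, y}) (av (av E {p}) {x, y}) (t + 2)) := ⟨_, rfl⟩
    obtain ⟨Y, hY⟩ : ∃ Y, Y = #(ind ((V.erase p) \ {x, y}) (av (av E {p}) {x, y}) (t + 2 + 1)) := ⟨_, rfl⟩
    rw [← hX] at s1 s3
    rw [← hY] at s2 s3
    have p3 : 0 < 3 ^ t := by positivity
    have p2 : 0 < 2 ^ t := by positivity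
    have r1 : 4 * 3 ^ t ≤ X := by
      have e1 : 8 * 3 ^ (t + 2) * 2 ^ (t + 1) = (4 * 3 ^ t) * (36 * 2 ^ t) := by ring
      have e2 : 9 * 2 ^ (t + 2) * X = X * (36 * 2 ^ t) := by ring
      rw [e1, e2] at s1
      exact Nat.le_of_mul_le_mul_right s1 (by positivity)
    have r2 : 4 * 3 ^ t ≤ 3 * Y := by
      have e1 : 3 ^ t * 2 ^ (t + 2) = (4 * 3 ^ t) * (2 ^ t) := by ring
      have e2 : 3 * 2 ^ t * Y = (3 * Y) * (2 ^ t) := by ring
      rw [e1, e2] at s2
      exact Nat.le_of_mul_le_mul_right s2 (by positivity)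
    have e3 : 3 ^ (t + 2) = 9 * 3 ^ t := by ring
    rw [e3]
    omega
  · push Not at hbig
    have hpeq : #(inc E p) = 3 := by
      have := hbig p
      omega
    have hpV : p ∈ V := hincV p (by omega)
    obtain ⟨a1, a2, a3, a4⟩ := h3 α V E p hG hpV
    -- the neighbours
    obtain ⟨e1, e2, e3, h12, h13, h23, hinc⟩ := card_eq_three.mp hpeq
    have key : ∀ e, e ∈ inc E p → ∃ a, p ≠ a ∧ e = {p, a} ∧ 3 ≤ #(inc E a) := by
      intro e he
      rw [inc, mem_filter] at he
      obtain ⟨heE, hpe⟩ := he
      have hd : ∀ a, p ≠ a → {p, a} ∈ E → 3 ≤ #(inc E a) := by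
        intro a hpa hE1
        have haV : a ∈ V := (hG _ hE1).1 (mem_insert_of_mem (mem_singleton_self _))
        rcases hall a haV with h | ⟨y, hy⟩
        · exact h
        · exfalso
          obtain ⟨hpa', hpy'⟩ := BF_kt hy (show 2 ≤ #(inc E p) by omega)
          have := hy.2.2 _ hE1 (Or.inl (mem_insert_of_mem (mem_singleton_self _)))
          have hp' : p ∈ ({a, y} : Finset α) := by
            rw [← this]; exact mem_insert_self _ _
          rw [mem_insert, mem_singleton] at hp'
          rcases hp' with h | h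
          · exact hpa' h
          · exact hpy' h
      obtain ⟨x, y, hxy, rfl⟩ := card_eq_two.mp (hG e heE).2
      rw [mem_insert, mem_singleton] at hpe
      rcases hpe with rfl | rfl
      · exact ⟨y, hxy, rfl, hd y hxy heE⟩
      · refine ⟨x, hxy.symm, pair_comm _ _, hd x hxy.symm ?_⟩
        rw [pair_comm]; exact heE
    have m1 : e1 ∈ inc E p := by rw [hinc]; exact mem_insert_self _ _
    have m2 : e2 ∈ inc E p := by rw [hinc]; exact mem_insert_of_mem (mem_insert_self _ _)
    have m3 : e3 ∈ inc E p := by rw [hinc]; exact mem_insert_of_mem (mem_insert_of_mem (mem_singleton_self _))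
    obtain ⟨a, hpa, rfl, hda⟩ := key e1 m1
    obtain ⟨b, hpb, rfl, hdb⟩ := key e2 m2
    obtain ⟨c, hpc, rfl, hdc⟩ := key e3 m3
    have hab : a ≠ b := by rintro rfl; exact h12 rfl
    have hac : a ≠ c := by rintro rfl; exact h13 rfl
    have hbc : b ≠ c := by rintro rfl; exact h23 rfl
    obtain ⟨S, hS⟩ : ∃ S, S = ({p, a, b, c} : Finset α) := ⟨_, rfl⟩
    have memS : ∀ z, z ∈ S ↔ z = p ∨ z = a ∨ z = b ∨ z = c := by
      intro z
      rw [hS, mem_insert, mem_insert, mem_insert, mem_singleton]
    have hdS : ∀ z ∈ S, #(inc E z) = 3 := by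
      intro z hz
      have := hbig z
      rcases (memS z).mp hz with rfl | rfl | rfl | rfl <;> omega
    have hSV : S ⊆ V := by
      intro z hz
      exact hincV z (by have := hdS z hz; omega)
    have hS4 : #S = 4 := by
      rw [hS, card_insert_of_notMem, card_insert_of_notMem, card_insert_of_notMem, card_singleton]
      · rw [mem_singleton]; exact hbc
      · rw [mem_insert, mem_singleton]
        rintro (h | h)
        · exact hab h
        · exact hac h
      · rw [mem_insert, mem_insert, mem_singleton]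
        rintro (h | h | h)
        · exact hpa h
        · exact hpb h
        · exact hpc h
    have hpS : p ∈ S := (memS p).mpr (Or.inl rfl)
    have hsubS : ∀ e ∈ E, p ∈ e → e ⊆ S := by
      intro e he hpe
      have : e ∈ inc E p := by rw [inc, mem_filter]; exact ⟨he, hpe⟩
      rw [hinc, mem_insert, mem_insert, mem_singleton] at this
      intro z hz
      rw [memS]
      rcases this with rfl | rfl | rfl
      · rw [mem_insert, mem_singleton] at hz; tauto
      · rw [mem_insert, mem_singleton] at hz; tauto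
      · rw [mem_insert, mem_singleton] at hz; tauto
    have hZD := h1 α V E p S q hG hpS hSV hsubS
    -- counting
    have hcount : #(av E S) + 6 ≤ #E := by
      have c1 : ∑ z ∈ S, #(inc E z) = 12 := by
        rw [sum_congr rfl hdS, sum_const, hS4]; rfl
      have c2 : ∑ z ∈ S, #(inc E z) = ∑ e ∈ E, #(S.filter (fun z => z ∈ e)) := by
        simp only [inc, card_filter]
        exact sum_comm
      have c3 : ∑ e ∈ E, #(S.filter (fun z => z ∈ e)) ≤ ∑ e ∈ E, 2 * (if Disjoint e S then 0 else 1) := by
        apply sum_le_sum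
        intro e he
        by_cases hd : Disjoint e S
        · rw [if_pos hd]
          have : S.filter (fun z => z ∈ e) = ∅ := by
            rw [filter_eq_empty_iff]
            intro z hz hze
            exact disjoint_left.mp hd hze hz
          rw [this]; simp
        · rw [if_neg hd, mul_one, ← (hG e he).2]
          apply card_le_card
          intro z hz
          exact (mem_filter.mp hz).2
      rw [← mul_sum, ← c2, c1] at c3
      have c4 : #(av E S) + ∑ e ∈ E, (if Disjoint e S then 0 else 1) = #E := by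
        rw [av, card_filter, ← sum_add_distrib, card_eq_sum_ones]
        apply sum_congr rfl
        intro e _
        split_ifs <;> rfl
      omega
    have hGS : Gr (V \ S) (av E S) := by
      intro e he
      rw [av, mem_filter] at he
      refine ⟨?_, (hG e he.1).2⟩
      intro z hz
      rw [mem_sdiff]
      exact ⟨(hG e he.1).1 hz, fun h => disjoint_left.mp he.2 hz h⟩
    have hVS : #(V \ S) + 4 = #V := by
      have := card_sdiff_add_card_eq_card hSV
      omega
    obtain ⟨t, rfl⟩ : ∃ t, q = t + 1 := ⟨q - 1, by omega⟩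
    have s1 := hSC α _ _ (t + 1) (t + 1) a1 (by omega) (by omega) (by omega) (by omega)
    have s2 := hSC α _ _ t t hGS (by omega) (by omega) (by omega) (by omega)
    obtain ⟨X, hX⟩ : ∃ X, X = #(ind (V.erase p) (av E {p}) (t + 1 + 1)) := ⟨_, rfl⟩
    obtain ⟨Y, hY⟩ : ∃ Y, Y = #(ind (V \ S) (av E S) (t + 1)) := ⟨_, rfl⟩
    rw [← hX] at s1 hZD
    rw [← hY] at s2 hZD
    have r1 : 8 * 3 ^ (t + 1) ≤ 9 * X := by
      have e1 : 8 * 3 ^ (t + 1) * 2 ^ (t + 1) = (8 * 3 ^ (t + 1)) * (2 ^ (t + 1)) := by ring
      have e2 : 9 * 2 ^ (t + 1) * X = (9 * X) * (2 ^ (t + 1)) := by ring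
      rw [e2] at s1
      exact Nat.le_of_mul_le_mul_right s1 (by positivity)
    have r2 : 8 * 3 ^ t ≤ 9 * Y := by
      have e2 : 9 * 2 ^ t * Y = (9 * Y) * (2 ^ t) := by ring
      rw [e2] at s2
      exact Nat.le_of_mul_le_mul_right s2 (by positivity)
    have e3 : 3 ^ (t + 1) = 3 * 3 ^ t := by ring
    rw [e3] at r1
    rw [e3]
    omega

end Pool.Agent.helper41.CL
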