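import Pool.Agent.helper47.CL.SpecC

set_option autoImplicit false

namespace Pool.Agent.helper41.CL

open Finset

theorem YF2_pair {α : Type} [DecidableEq α] {V : Finset α} {E : Finset (Finset α)} (hG : Gr V E) {p : α}
    (h : #(inc E p) = 2) : ∃ a b, p ≠ a ∧ p ≠ b ∧ a ≠ b ∧ {p, a} ∈ E ∧ {p, b} ∈ E ∧
      ∀ e ∈ E, p ∈ e → e = {p, a} ∨ e = {p, b} := by
  obtain ⟨e1, e2, hne, he⟩ := card_eq_two.mp h
  have key : ∀ e, e ∈ E → p ∈ e → ∃ a, p ≠ a ∧ e = {p, a} := by
    intro e heE hpe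
    obtain ⟨x, y, hxy, rfl⟩ := card_eq_two.mp (hG e heE).2
    rw [mem_insert, mem_singleton] at hpe
    rcases hpe with rfl | rfl
    · exact ⟨y, hxy, rfl⟩
    · exact ⟨x, hxy.symm, pair_comm _ _⟩
  have h1 : e1 ∈ inc E p := by rw [he]; exact mem_insert_self _ _
  have h2 : e2 ∈ inc E p := by rw [he]; exact mem_insert_of_mem (mem_singleton_self _)
  rw [inc, mem_filter] at h1 h2
  obtain ⟨a, hpa, rfl⟩ := key e1 h1.1 h1.2
  obtain ⟨b, hpb, rfl⟩ := key e2 h2.1 h2.2
  refine ⟨a, b, hpa, hpb, ?_, h1.1, h2.1, ?_⟩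
  · rintro rfl; exact hne rfl
  · intro e heE hpe
    have h3 : e ∈ inc E p := by rw [inc, mem_filter]; exact ⟨heE, hpe⟩
    rw [he, mem_insert, mem_singleton] at h3
    exact h3

theorem YF (h1 : AZ_stmt) (h2 : SP_stmt) (h3 : WO_stmt) (h4 : EA_stmt) (h5 : SD_stmt) : YF_stmt := by
  intro α _ V E c hG hc hE hV hdeg hstar
  obtain ⟨D, hD⟩ : ∃ D, D = V.filter (fun v => #(inc E v) = 2) := ⟨_, rfl⟩
  have hmD : ∀ p, p ∈ D → p ∈ V ∧ #(inc E p) = 2 := by
    intro p hp
    rw [hD, mem_filter] at hp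
    exact hp
  have hsum := h5 α V E hG
  have hD4 : 4 ≤ #D := by
    have h6 : ∑ x ∈ V, #(inc E x) ≤ ∑ x ∈ V, (1 + if #(inc E x) = 2 then 1 else 0) := by
      apply sum_le_sum
      intro x _
      have := hdeg x
      split_ifs <;> omega
    rw [sum_add_distrib, sum_const, ← card_filter, ← hD, smul_eq_mul, mul_one, hsum, hE, hV] at h6
    omega
  have hdisj : ∀ p q, p ≠ q → #(inc E p) = 2 → #(inc E q) = 2 → Disjoint (inc E p) (inc E q) := by
    intro p q hpq hp hq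
    rw [disjoint_left]
    intro e he1 he2
    rw [inc, mem_filter] at he1 he2
    have := hstar e he1.1 p he1.2 q he2.2 hpq hp
    omega
  have hE8 : 2 * #D ≤ #E := by
    have h6 : #(D.biUnion (inc E)) = ∑ p ∈ D, #(inc E p) := by
      apply card_biUnion
      intro p hp q hq hpq
      exact hdisj p q hpq (hmD p hp).2 (hmD q hq).2
    have h7 : ∑ p ∈ D, #(inc E p) = 2 * #D := by
      rw [sum_congr rfl (fun p hp => (hmD p hp).2), sum_const, smul_eq_mul, mul_comm]
    have h8 : D.biUnion (inc E) ⊆ E := by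
      intro e he
      rw [mem_biUnion] at he
      obtain ⟨p, -, he⟩ := he
      exact (mem_filter.mp he).1
    rw [← h7, ← h6]
    exact card_le_card h8
  have hc6 : 6 ≤ c := by omega
  obtain ⟨p1, p2, p3, hp1, hp2, hp3, h12, h13, h23⟩ := two_lt_card_iff.mp (show 2 < #D by omega)
  obtain ⟨hV1, hd1⟩ := hmD p1 hp1
  obtain ⟨hV2, hd2⟩ := hmD p2 hp2
  obtain ⟨hV3, hd3⟩ := hmD p3 hp3
  have dj12 := hdisj p1 p2 h12 hd1 hd2
  have dj13 := hdisj p1 p3 h13 hd1 hd3
  have dj23 := hdisj p2 p3 h23 hd2 hd3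
  obtain ⟨a, b, hpa, hpb, hab, heA, heB, hall⟩ := YF2_pair hG hd2
  have hda : #(inc E a) = 1 := hstar _ heA p2 (mem_insert_self _ _) a (mem_insert_of_mem (mem_singleton_self _)) hpa hd2
  have hdb : #(inc E b) = 1 := hstar _ heB p2 (mem_insert_self _ _) b (mem_insert_of_mem (mem_singleton_self _)) hpb hd2
  have haV : a ∈ V := (hG _ heA).1 (mem_insert_of_mem (mem_singleton_self _))
  have hbV : b ∈ V := (hG _ heB).1 (mem_insert_of_mem (mem_singleton_self _))
  have ha1 : a ≠ p1 := by rintro rfl; omega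
  have hb1 : b ≠ p1 := by rintro rfl; omega
  have ha3 : a ≠ p3 := by rintro rfl; omega
  have hb3 : b ≠ p3 := by rintro rfl; omega
  -- the sets of pairs
  obtain ⟨E1, hE1⟩ : ∃ E1, E1 = E.filter (fun e => p1 ∉ e) := ⟨_, rfl⟩
  obtain ⟨E2, hE2⟩ : ∃ E2, E2 = E1.filter (fun e => p2 ∉ e) := ⟨_, rfl⟩
  have hE2card : #E2 = c - 2 := by
    have e1 : E2 = E \ (inc E p1 ∪ inc E p2) := by
      ext e
      rw [hE2, hE1, mem_filter, mem_filter, mem_sdiff, mem_union, inc, inc, mem_filter, mem_filter]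
      tauto
    have e2 : inc E p1 ∪ inc E p2 ⊆ E := union_subset (filter_subset _ _) (filter_subset _ _)
    rw [e1, card_sdiff_of_subset e2, card_union_of_disjoint dj12, hd1, hd2, hE]
    omega
  have s1 := h2 α V E p1 (c - 1) hV1
  rw [← hE1, show c - 1 + 1 = c by omega] at s1
  have s2 := h2 α (V.erase p1) E1 p2 (c - 2) (mem_erase.mpr ⟨h12.symm, hV2⟩)
  rw [← hE2, show c - 2 + 1 = c - 1 by omega] at s2
  -- covers with `p1`, `p2`
  have hG2 : Gr ((V.erase p1).erase p2) E2 := by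
    intro e he
    rw [hE2, hE1, mem_filter, mem_filter] at he
    refine ⟨?_, (hG e he.1.1).2⟩
    intro x hx
    rw [mem_erase, mem_erase]
    refine ⟨?_, ?_, (hG e he.1.1).1 hx⟩
    · rintro rfl; exact he.2 hx
    · rintro rfl; exact he.1.2 hx
  have hV12 : #((V.erase p1).erase p2) = 2 * c - 2 := by
    rw [card_erase_of_mem (mem_erase.mpr ⟨h12.symm, hV2⟩), card_erase_of_mem hV1, hV]
    omega
  have hinc3 : 2 ≤ #(inc E2 p3) := by
    rw [← hd3]
    apply card_le_card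
    intro e he
    have he' := he
    rw [inc, mem_filter] at he'
    rw [inc, mem_filter, hE2, hE1, mem_filter, mem_filter]
    refine ⟨⟨⟨he'.1, ?_⟩, ?_⟩, he'.2⟩
    · intro h
      exact (disjoint_left.mp dj13) (by rw [inc, mem_filter]; exact ⟨he'.1, h⟩) he
    · intro h
      exact (disjoint_left.mp dj23) (by rw [inc, mem_filter]; exact ⟨he'.1, h⟩) he
  have hEA := h4 α ((V.erase p1).erase p2) E2 p3 hG2 hinc3 (by rw [hE2card, hV12]; omega)
  rw [hE2card, hV12] at hEA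
  have e3 : 2 * (2 * c - 2) - 3 * (c - 2) + 6 = c + 8 := by omega
  rw [e3] at hEA
  -- covers with `p1`, without `p2`
  have hWO := h3 α (V.erase p1) E1 p2 a b (c - 3) (mem_erase.mpr ⟨ha1, haV⟩) (mem_erase.mpr ⟨hb1, hbV⟩) hpa hpb hab
    (by
      intro e he hp
      rw [hE1, mem_filter] at he
      exact hall e he.1 hp)
  rw [show c - 3 + 2 = c - 1 by omega] at hWO
  obtain ⟨V3, hV3e⟩ : ∃ V3, V3 = (V.erase p1) \ {p2, a, b} := ⟨_, rfl⟩
  obtain ⟨E3, hE3⟩ : ∃ E3, E3 = E1.filter (fun e => p2 ∉ e ∧ a ∉ e ∧ b ∉ e) := ⟨_, rfl⟩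
  rw [← hV3e, ← hE3] at hWO
  have hV3card : #V3 = 2 * c - 4 := by
    have e1 : ({p2, a, b} : Finset α) ⊆ V.erase p1 := by
      intro x hx
      rw [mem_insert, mem_insert, mem_singleton] at hx
      rcases hx with rfl | rfl | rfl
      · exact mem_erase.mpr ⟨h12.symm, hV2⟩
      · exact mem_erase.mpr ⟨ha1, haV⟩
      · exact mem_erase.mpr ⟨hb1, hbV⟩
    have e2 : #({p2, a, b} : Finset α) = 3 := by
      rw [card_insert_of_notMem, card_insert_of_notMem, card_singleton]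
      · rw [mem_singleton]; exact hab
      · rw [mem_insert, mem_singleton]
        rintro (h | h)
        · exact hpa h
        · exact hpb h
    rw [hV3e, card_sdiff_of_subset e1, e2, card_erase_of_mem hV1, hV]
    omega
  have hp3V3 : p3 ∈ V3 := by
    rw [hV3e, mem_sdiff, mem_erase, mem_insert, mem_insert, mem_singleton]
    refine ⟨⟨h13.symm, hV3⟩, ?_⟩
    rintro (h | h | h)
    · exact h23 h.symm
    · exact ha3 h.symm
    · exact hb3 h.symm
  have s3 := h2 α V3 E3 p3 (c - 4) hp3V3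
  rw [show c - 4 + 1 = c - 3 by omega] at s3
  have hG4 : Gr (V3.erase p3) (E3.filter fun e => p3 ∉ e) := by
    intro e he
    rw [hE3, hE1, mem_filter, mem_filter, mem_filter] at he
    refine ⟨?_, (hG e he.1.1.1).2⟩
    intro x hx
    rw [mem_erase, hV3e, mem_sdiff, mem_erase, mem_insert, mem_insert, mem_singleton]
    refine ⟨?_, ⟨?_, (hG e he.1.1.1).1 hx⟩, ?_⟩
    · rintro rfl; exact he.2 hx
    · rintro rfl; exact he.1.1.2 hx
    · rintro (rfl | rfl | rfl)
      · exact he.1.2.1 hx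
      · exact he.1.2.2.1 hx
      · exact he.1.2.2.2 hx
  have hE4card : #(E3.filter fun e => p3 ∉ e) ≤ c - 4 := by
    have e1 : (E3.filter fun e => p3 ∉ e) ⊆ E \ (inc E p1 ∪ inc E p2 ∪ inc E p3) := by
      intro e he
      rw [hE3, hE1, mem_filter, mem_filter, mem_filter] at he
      rw [mem_sdiff, mem_union, mem_union, inc, inc, inc, mem_filter, mem_filter, mem_filter]
      tauto
    have e2 : inc E p1 ∪ inc E p2 ∪ inc E p3 ⊆ E :=
      union_subset (union_subset (filter_subset _ _) (filter_subset _ _)) (filter_subset _ _)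
    have e4 : Disjoint (inc E p1 ∪ inc E p2) (inc E p3) := disjoint_union_left.mpr ⟨dj13, dj23⟩
    have e5 := card_le_card e1
    rw [card_sdiff_of_subset e2, card_union_of_disjoint e4, card_union_of_disjoint dj12, hd1, hd2, hd3, hE] at e5
    omega
  have hAZ := h1 α (V3.erase p3) (E3.filter fun e => p3 ∉ e) (c - 4) hG4 hE4card (by
    rw [card_erase_of_mem hp3V3, hV3card]; omega)
  -- the sum
  obtain ⟨d, rfl⟩ : ∃ d, c = d + 6 := ⟨c - 6, by omega⟩
  have q1 : (2 : ℕ) ^ (d + 6 - 1) = 32 * 2 ^ d := by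
    rw [show d + 6 - 1 = d + 5 by omega, pow_add]; ring
  have q2 : (2 : ℕ) ^ (d + 6 - 2) = 16 * 2 ^ d := by
    rw [show d + 6 - 2 = d + 4 by omega, pow_add]; ring
  have q3 : (2 : ℕ) ^ (d + 6 - 4) = 4 * 2 ^ d := by
    rw [show d + 6 - 4 = d + 2 by omega, pow_add]; ring
  rw [q2] at hEA
  rw [q3] at hAZ
  rw [q1]
  have q4 : 16 * 2 ^ d * 14 ≤ 16 * 2 ^ d * (d + 6 + 8) := Nat.mul_le_mul_left _ (by omega)
  omega

end Pool.Agent.helper41.CL
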